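import Pool.Agent.Helper14.BSC.Stmts2

set_option autoImplicit false

namespace Pool.Agent.Helper14.BSC

theorem st_ADL : ST_ADL := by
  intro k Ω _ _ _ _ _ D x I hI h
  set r0 : ℚ := FractionalIdeal.absNorm I with hr0
  have hr0pos : 0 < r0 := by
    have h1 : r0 ≠ 0 := by
      rw [hr0, Ne, FractionalIdeal.absNorm_eq_zero_iff]
      exact hI
    exact lt_of_le_of_ne (FractionalIdeal.absNorm_nonneg I) (Ne.symm h1)
  have main : ∀ n : ℕ, 0 < n →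
      (∃ c : k, c ≠ 0 ∧ ∃ g : LL D, x = algebraMap k (LL D) c * g ^ n ∧
        ∃ t : ℚ, Algebra.norm ℚ c = r0 * t ^ n) ∨
      (∃ c : k, c ≠ 0 ∧ ∃ g : LL D, x = algebraMap k (LL D) c * g ^ n ∧
        ∃ t : ℚ, Algebra.norm ℚ c = (-r0) * t ^ n) := by
    intro n hn
    obtain ⟨c, hc, g, hx, J, hJ⟩ := h n hn
    have h1 := congrArg FractionalIdeal.absNorm hJ
    rw [FractionalIdeal.absNorm_span_singleton, map_mul, map_pow] at h1
    rcases abs_choice (Algebra.norm ℚ c) with h2 | h2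
    · left
      refine ⟨c, hc, g, hx, FractionalIdeal.absNorm J, ?_⟩
      rw [← h1, h2]
    · right
      refine ⟨c, hc, g, hx, FractionalIdeal.absNorm J, ?_⟩
      rw [neg_mul, ← h1, h2, neg_neg]
  have mono : ∀ (s : ℚ) (n m : ℕ), (∃ c : k, c ≠ 0 ∧ ∃ g : LL D, x = algebraMap k (LL D) c * g ^ (n * m) ∧
        ∃ t : ℚ, Algebra.norm ℚ c = s * t ^ (n * m)) →
      (∃ c : k, c ≠ 0 ∧ ∃ g : LL D, x = algebraMap k (LL D) c * g ^ n ∧
        ∃ t : ℚ, Algebra.norm ℚ c = s * t ^ n) := by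
    rintro s n m ⟨c, hc, g, hx, t, ht⟩
    refine ⟨c, hc, g ^ m, ?_, t ^ m, ?_⟩
    · rw [hx, ← pow_mul, mul_comm m n]
    · rw [ht, ← pow_mul, mul_comm m n]
  by_cases hp : ∀ n : ℕ, 0 < n → (∃ c : k, c ≠ 0 ∧ ∃ g : LL D, x = algebraMap k (LL D) c * g ^ n ∧
        ∃ t : ℚ, Algebra.norm ℚ c = r0 * t ^ n)
  · exact ⟨r0, hr0pos.ne', hp⟩
  · push Not at hp
    obtain ⟨n0, hn0, hneg⟩ := hp
    refine ⟨-r0, neg_ne_zero.2 hr0pos.ne', ?_⟩
    intro n hn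
    rcases main (n * n0) (Nat.mul_pos hn hn0) with h1 | h1
    · rw [mul_comm n n0] at h1
      obtain ⟨c, hc, g, hx, t, ht⟩ := mono r0 n0 n h1
      exact absurd ht (hneg c hc g hx t)
    · exact mono (-r0) n n0 h1

end Pool.Agent.Helper14.BSC
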