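import Pool.Agent.Helper14.BSC.Stmts

set_option autoImplicit false

namespace Pool.Agent.Helper14.BSC

open scoped IntermediateField.algebraAdjoinAdjoin in
theorem alg_dep {k K Ω : Type} [Field k] [Field K] [Field Ω] [Algebra k K] [Algebra K Ω]
    [Algebra k Ω] [IsScalarTower k K Ω] [Algebra.IsAlgebraic K Ω] (t : K)
    (ht : Algebra.IsAlgebraic (IntermediateField.adjoin k {t}) K) (x : Ω) (hx : Transcendental k x) :
    Algebra.IsAlgebraic (Algebra.adjoin k {x}) Ω := by
  have h1 : Algebra.IsAlgebraic (Algebra.adjoin k {t}) K :=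
    (IsFractionRing.comap_isAlgebraic_iff (A := Algebra.adjoin k {t})
      (K := IntermediateField.adjoin k {t})).2 ht
  have h2 : Algebra.trdeg k K ≤ 1 := by
    have := Algebra.IsAlgebraic.trdeg_le_cardinalMk k ({t} : Set K)
    rwa [Cardinal.mk_singleton] at this
  have h3 : Algebra.trdeg k Ω ≤ 1 := by
    have h4 := trdeg_add_eq k K (A := Ω)
    have h8 : Algebra.trdeg K Ω = 0 := trdeg_eq_zero
    rw [h8, add_zero] at h4
    rw [← h4]
    exact h2
  have h5 : AlgebraicIndependent k (fun _ : Unit => x) :=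
    algebraicIndependent_unique_type_iff.2 hx
  have h6 := h5.isTranscendenceBasis_of_trdeg_le_of_finite (by simpa using h3)
  have h7 := h6.isAlgebraic
  rwa [Set.range_const] at h7

theorem alg_lift {k L Ω : Type} [Field k] [Field L] [Field Ω] [Algebra k L] [Algebra L Ω]
    [Algebra k Ω] [IsScalarTower k L Ω] (x y : L)
    (h : IsAlgebraic (Algebra.adjoin k {algebraMap L Ω x}) (algebraMap L Ω y)) :
    ∃ G : Polynomial (Polynomial k), G ≠ 0 ∧
      Polynomial.eval₂ (Polynomial.aeval x).toRingHom y G = 0 := by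
  obtain ⟨P, hP, hP0⟩ := h
  set X : Algebra.adjoin k {algebraMap L Ω x} :=
    ⟨algebraMap L Ω x, Algebra.subset_adjoin (Set.mem_singleton _)⟩ with hX
  set φ : Polynomial k →+* Algebra.adjoin k {algebraMap L Ω x} := (Polynomial.aeval X).toRingHom
    with hφ
  have hval : ∀ q : Polynomial k, ((φ q : Algebra.adjoin k {algebraMap L Ω x}) : Ω) =
      algebraMap L Ω (Polynomial.aeval x q) := by
    intro q
    have h1 := Polynomial.aeval_algebraMap_apply Ω X q
    have h2 := Polynomial.aeval_algebraMap_apply Ω x q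
    have h3 : algebraMap (Algebra.adjoin k {algebraMap L Ω x}) Ω X = algebraMap L Ω x := rfl
    rw [h3, h2] at h1
    exact h1.symm
  have hsurj : Function.Surjective φ := by
    rintro ⟨a, ha⟩
    rw [Algebra.adjoin_singleton_eq_range_aeval] at ha
    obtain ⟨q, hq⟩ := ha
    refine ⟨q, Subtype.ext ?_⟩
    rw [hval]
    exact (Polynomial.aeval_algebraMap_apply Ω x q).symm.trans hq
  obtain ⟨G, hG⟩ := Polynomial.map_surjective φ hsurj P
  refine ⟨G, ?_, ?_⟩
  · rintro rfl
    rw [Polynomial.map_zero] at hG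
    exact hP hG.symm
  · apply (algebraMap L Ω).injective
    rw [map_zero, Polynomial.hom_eval₂]
    rw [← hG, Polynomial.aeval_def, Polynomial.eval₂_map] at hP0
    have h4 : (algebraMap L Ω).comp (Polynomial.aeval x).toRingHom =
        (algebraMap (Algebra.adjoin k {algebraMap L Ω x}) Ω).comp φ := by
      ext q
      · exact (hval _).symm
      · exact (hval _).symm
    rw [h4]
    exact hP0

theorem st_ALG (hB : ST_BOT) : ST_ALG := by
  intro k K Ω _ _ _ _ _ _ _ _ _ _ D ⟨t, ht, halg⟩ x y hx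
  have hxt : Transcendental k (x : Ω) := by
    intro hal
    have h1 : (x : Ω) ∈ Acl k Ω := (mem_algebraicClosure_iff).2 hal
    have h2 : (⟨(x : Ω), h1⟩ : Acl k Ω) ∈ FF (∅ : Set (Acl k Ω)) :=
      (coe_mem_NN (D := D)).1 x.2
    obtain ⟨c, hc⟩ := hB k Ω _ h2
    apply hx c
    apply Subtype.ext
    have h3 := congrArg (fun a : Acl k Ω => (a : Ω)) hc
    exact h3
  have h1 := alg_dep (Ω := Ω) t halg (x : Ω) hxt
  exact alg_lift (Ω := Ω) x y (h1.isAlgebraic _)

end Pool.Agent.Helper14.BSC
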