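import Pool.Agent.Helper14.BSC.Stmts

set_option autoImplicit false

namespace Pool.Agent.Helper14.BSC

theorem rign2_inc {k Ω : Type} [Field k] [Field Ω] [Algebra k Ω] (hR : ST_ROOT) (D : Sec k Ω)
    (S : Set (Acl k Ω)) {c : FF S} (h : IsSquare (inc D S c)) : IsSquare c := by
  obtain ⟨y, hy⟩ := h
  have h1 : y ^ 2 = inc D S c := by rw [hy, sq]
  obtain ⟨d, hd⟩ := hR k Ω D S 2 (by norm_num) y c h1
  refine ⟨d, ?_⟩
  apply (inc D S).toRingHom.injective
  change inc D S c = inc D S (d * d)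
  rw [map_mul, ← hd, hy]

theorem rign2_mul {F : Type} [Field F] {c g : F} (h : IsSquare c) : IsSquare (c * g ^ 2) :=
  h.mul (IsSquare.sq g)

theorem st_RIGN2 (hK : ST_KUM) (hR : ST_ROOT) (hP : ST_PAD2) (hD : ST_DSC2) : ST_RIGN2 := by
  intro k Ω _ _ _ _ _ D p _ hp Lc S ϖ hG e hA
  obtain ⟨p1, p2, p3, p4, p5, p6⟩ := hP k Ω p hp Lc S ϖ hG e hA
  have hmap : ∀ {c : FF S}, IsSquare c → IsSquare (inc D S c) := fun h => h.map (inc D S)
  refine ⟨?_, ?_, ?_, ?_, ?_, ?_⟩
  · have := hmap p1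
    rwa [map_neg, map_one] at this
  · intro u v hu hv huv
    obtain ⟨c, hc, g, hg, rfl⟩ := hK k Ω D S 2 (by norm_num) u hu
    obtain ⟨d, hd, h, hh, rfl⟩ := hK k Ω D S 2 (by norm_num) v hv
    by_cases h1 : IsSquare c
    · exact Or.inl (rign2_mul (hmap h1))
    by_cases h2 : IsSquare d
    · exact Or.inr (Or.inl (rign2_mul (hmap h2)))
    by_cases h3 : IsSquare (c * d)
    · refine Or.inr (Or.inr ?_)
      have h4 := rign2_mul (g := g * h) (hmap h3)
      rw [map_mul] at h4
      have h5 : inc D S c * g ^ 2 * (inc D S d * h ^ 2) = inc D S c * inc D S d * (g * h) ^ 2 := by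
        ring
      rwa [h5]
    · obtain ⟨a, b, hab⟩ := hD k Ω D S c d g h h1 hd hh huv
      exact absurd hab (p6 c d a b hd h1 h2 h3)
  · exact fun h => p2 (rign2_inc hR D S h)
  · have := hmap p3
    rwa [map_add, map_one] at this
  · intro h
    have h1 : inc D S (1 - e) = 1 - inc D S e := by rw [map_sub, map_one]
    rw [← h1] at h
    exact p4 (rign2_inc hR D S h)
  · intro x y hx hy
    have hx0 : x ≠ 0 := by
      rintro rfl
      exact hx.1 (IsSquare.zero)
    have hy0 : y ≠ 0 := by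
      rintro rfl
      exact hy.1 (IsSquare.zero)
    obtain ⟨c, hc, g, hg, rfl⟩ := hK k Ω D S 2 (by norm_num) x hx0
    obtain ⟨d, hd, h, hh, rfl⟩ := hK k Ω D S 2 (by norm_num) y hy0
    have key : ∀ (c : FF S) (g : NN D S), Od (inc D S e) (inc D S c * g ^ 2) → Od e c := by
      intro c g hcg
      refine ⟨fun h1 => hcg.1 (rign2_mul (hmap h1)), fun h1 => hcg.2 ?_⟩
      have h2 := rign2_mul (g := g) (hmap h1)
      rwa [map_mul, mul_assoc] at h2
    rcases p5 c d (key c g hx) (key d h hy) with h1 | h1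
    · left
      have h4 := rign2_mul (g := g * h) (hmap h1)
      rw [map_mul] at h4
      have h5 : inc D S c * g ^ 2 * (inc D S d * h ^ 2) = inc D S c * inc D S d * (g * h) ^ 2 := by
        ring
      rwa [h5]
    · right
      have h4 := rign2_mul (g := g * h) (hmap h1)
      rw [map_mul, map_mul] at h4
      have h5 : inc D S e * (inc D S c * g ^ 2 * (inc D S d * h ^ 2)) =
          inc D S e * (inc D S c * inc D S d) * (g * h) ^ 2 := by
        ring
      rwa [h5]

end Pool.Agent.Helper14.BSC
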